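import Pool.Agent.K7.H54.DP.ScaleT
import Pool.Agent.K7.H54.DP.GSC
import Pool.Agent.K7.H54.DP.MULT
import Pool.Agent.K7.H54.DP.PIGC
import Pool.Agent.K7.H54.DP.MODK
import Pool.Agent.K7.H54.DP.COUNT
import Pool.Agent.K7.H54.DP.SEP
import Pool.Agent.K7.H54.DP.AET
import Pool.Agent.K7.H54.DP.FACT
import Pool.Agent.K7.H54.DP.ROUNDT
import Pool.Agent.K7.H54.DP.COVERT
import Pool.Agent.K7.H54.DP.GCD
import Pool.Agent.K7.H54.DP.ROT
import Pool.Agent.K7.H54.DP.DPV
import Pool.Agent.K7.H54.DP.IRR
import Pool.Agent.K7.H54.DP.ARC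
import Pool.Agent.K7.H54.DP.VDM
import Pool.Agent.L7h33.DQ.Loc
import Pool.Agent.L7h33.DQ.Mea
import Pool.Agent.L7h33.DQ.Aeg
import Pool.Agent.L7h33.DQ.Com
import Pool.Agent.L7h33.DQ.Fin
import Pool.Agent.L7h89.DQ.Det
import Pool.Agent.L7h89.DQ.Mmb
import Pool.Agent.L7h89.DQ.Low
import Pool.Agent.L7h97.DQ.Bas
import Pool.Agent.L7h97.DQ.Dio
import Pool.Agent.L7h97.DQ.Dob
import Pool.Agent.L7h97.DQ.Dya
import Pool.Agent.L7h97.DQ.Ipl

/-!
# MP_4c4335_nt: the exponent `n / (log n) ^ 25` for almost every point of the circle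

Let `z = exp (i θ)`. The weight of the integer polynomial `c 0 + c 1 X + ... + c D X ^ D` is the sum of
`1 + |c j|`, `0 ≤ j ≤ D`, and `S n θ` is the set of the logarithms (with imaginary part in `[0, 2 π)`) of the
nonzero values at `z` of the polynomials of weight at most `n`. `θ` has the property `DPV n R` if every point
of the rectangle `[-log R, 0] × [0, 2 π]` has distance at most `1 / 10` from `S n θ`, and `RDPV n θ` is the
supremum of the `R` with this property.

**Theorem.** For almost every `θ` in `[0, 2 π)`, `RDPV n θ ≥ exp (n / (log n) ^ 25)` for all large `n`.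

The conjectured bound is `exp (c n)`; the bound for almost every `θ` in the file `ExponentTwoThirds.lean` is
`exp (n ^ (2 / 3 - δ))`.

The proof. A polynomial is flat if its coefficients are in `{-1, 0, 1}`. Let `s = N / (log N) ^ 6`,
`K = (log N) ^ 8`, `ρ = exp (-s)` and `Γ = N ^ (40 K)`. The main point: for almost every `z` and all large `N`
there is a flat polynomial of degree less than `N` with `ρ / Γ < |D(z)| ≤ ρ`. Suppose that there is a gap
(no such polynomial) for a set of points `z` of measure more than `N ^ (-3)`. (1) This set is dense enough near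
one of its points `z` at all dyadic scales. By interpolation, scale by scale, all flat polynomials of degree less
than `N` which are at most `ρ` at `z` are at most `ρ` on a disc of radius `r = exp (- s / (8 K))` (about)
around `z`. (2) By the pigeonhole principle there is a set `F` of at most `4 s` exponents such that all the other
`X ^ k` are congruent to sums and differences of `X ^ j`, `j ∈ F`, `j < k`, modulo flat polynomials with small
values. An argument with determinants shows that the greatest common divisor `G` of the small flat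
polynomials has Mahler measure at most `exp (8 / (log N) ^ 5)`. By Dobrowolski's theorem `G` is a product of
cyclotomic polynomials and a power of `X`; the multiplicities are small because flat polynomials have no roots of
high multiplicity. So `|G| ≥ exp (- s / 4)` near `z`. (3) Hence the cofactors `D / G` are at most
`exp (- 3 s / 4)` on the disc, and by Cauchy's estimates their first `K` Taylor coefficients at `z` are at most
`exp (- s / 2)`. The cofactors (times powers of `X`) span all polynomials of degree less than `2 m`; the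
determinant is a nonzero integer, but it is at most `(2 N) ^ (2 N) exp (- s K / 2) < 1`. (4) Given a number
`w` with `|w| ≥ exp (- n / (log n) ^ 25)` take a flat polynomial whose value at `z` is a bit larger than `|w|`, at most
by a factor `exp (41 (log n) ^ 9)`, and multiply it by a polynomial of weight `(log n) ^ 16` obtained from the
theorem in the file `ExponentTwoThirds.lean` (exponent `3 / 5`).
-/

set_option autoImplicit false

namespace Pool.Agent.Results.MP_4c4335_nt.AlmostLinearExponent

open MeasureTheory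

/-- the point `exp (i θ)` of the unit circle -/
noncomputable def point (θ : ℝ) : ℂ := Complex.exp (θ * Complex.I)

/-- the weight of the coefficient vector `c 0, ..., c D`: the sum of `1 + |c j|` -/
def weight (D : ℕ) (c : ℕ → ℤ) : ℤ := ∑ j ∈ Finset.range (D + 1), (1 + |c j|)

/-- the value at `exp (i θ)` of the polynomial with the coefficients `c 0, ..., c D` -/
noncomputable def value (θ : ℝ) (D : ℕ) (c : ℕ → ℤ) : ℂ :=
  ∑ j ∈ Finset.range (D + 1), (c j : ℂ) * point θ ^ j

/-- the logarithm with imaginary part in `[0, 2 π)`: `toIcoMod Real.two_pi_pos 0 x` is the number in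
`[0, 2 π)` which is congruent to `x` modulo `2 π` -/
noncomputable def lg (w : ℂ) : ℂ := ⟨Real.log ‖w‖, toIcoMod Real.two_pi_pos 0 w.arg⟩

/-- the set `S_n(θ)` of the logarithms of the nonzero values of the polynomials of weight at most `n` -/
def S (n : ℕ) (θ : ℝ) : Set ℂ :=
  {s | ∃ (D : ℕ) (c : ℕ → ℤ), weight D c ≤ n ∧ value θ D c ≠ 0 ∧ s = lg (value θ D c)}

/-- the property `DPV(n, R)`: every point of the rectangle `[-log R, 0] × [0, 2 π]` lies within distance
`1 / 10` of a point of `S_n(θ)` -/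
def DPV (n : ℕ) (R : ℝ) (θ : ℝ) : Prop :=
  ∀ x : ℂ, -Real.log R ≤ x.re → x.re ≤ 0 → 0 ≤ x.im → x.im ≤ 2 * Real.pi →
    ∃ s ∈ S n θ, ‖x - s‖ ≤ 1 / 10

/-- `R_DPV(n, θ)`, the supremum (possibly infinite) of the positive numbers `R` with `DPV(n, R)` -/
noncomputable def RDPV (n : ℕ) (θ : ℝ) : EReal :=
  sSup {x : EReal | ∃ R : ℝ, 0 < R ∧ DPV n R θ ∧ x = (R : EReal)}

theorem result : ∀ᵐ θ ∂(volume.restrict (Set.Ico (0 : ℝ) (2 * Real.pi))),
    ∃ n₀ : ℕ, ∀ n : ℕ, n₀ ≤ n →
      DPV n (Real.exp (n / (Real.log n) ^ 25)) θ ∧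
        (Real.exp (n / (Real.log n) ^ 25) : EReal) ≤ RDPV n θ := by
  have hcount : Pool.Agent.K7.H54.DP.StCount :=
    Pool.Agent.K7.H54.DP.count (Pool.Agent.K7.H54.DP.modk Pool.Agent.K7.H54.DP.vdm)
  have haet : Pool.Agent.K7.H54.DP.StAET :=
    Pool.Agent.K7.H54.DP.aet hcount Pool.Agent.K7.H54.DP.sep Pool.Agent.K7.H54.DP.arc
  have hscale : Pool.Agent.K7.H54.DP.StScaleT :=
    Pool.Agent.K7.H54.DP.scalet Pool.Agent.K7.H54.DP.fact Pool.Agent.K7.H54.DP.pigc
      (Pool.Agent.K7.H54.DP.mult Pool.Agent.K7.H54.DP.gsc) Pool.Agent.K7.H54.DP.gcd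
      Pool.Agent.K7.H54.DP.roundt Pool.Agent.K7.H54.DP.rot
  have hloc : Pool.Agent.L7h33.DQ.S_LOC :=
    Pool.Agent.L7h33.DQ.s_loc Pool.Agent.L7h97.DQ.s_PTS Pool.Agent.L7h97.DQ.s_INT
  have hlow : Pool.Agent.L7h33.DQ.S_LOW := Pool.Agent.L7h89.DQ.s_LOW Pool.Agent.L7h97.DQ.s_DOB
  have hmea : Pool.Agent.L7h33.DQ.S_MEA :=
    Pool.Agent.L7h33.DQ.s_mea Pool.Agent.L7h97.DQ.s_DYA hloc Pool.Agent.L7h97.DQ.s_BAS
      Pool.Agent.L7h89.DQ.s_MMB hlow Pool.Agent.L7h89.DQ.s_DET Pool.Agent.K7.H54.DP.gcd
  exact Pool.Agent.L7h33.DQ.s_fin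
    (Pool.Agent.L7h33.DQ.s_aeg hmea Pool.Agent.L7h97.DQ.s_DIO) Pool.Agent.L7h33.DQ.s_com haet
    (Pool.Agent.K7.H54.DP.covert hscale) Pool.Agent.K7.H54.DP.dpv Pool.Agent.K7.H54.DP.irr

end Pool.Agent.Results.MP_4c4335_nt.AlmostLinearExponent
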